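import Pool.Agent.Helper59.V8.Lens
import Pool.Agent.Helper59.V8.Sector
import Pool.Agent.Helper30.VQ.Cir

/-!
# MP_ea8a26, project EV4: the zeros when all Seifert circles are short
-/

set_option autoImplicit false

namespace Pool.Agent.Helper57.EV4

open Complex Finset Polynomial Pool.Agent.Helper85.Exp Pool.Agent.Helper60.EV2 Pool.Agent.Helper2.PD Pool.Agent.Helper16.PD Pool.Agent.Helper43.Pln
  Pool.Agent.Helper30.VQ Pool.Agent.Helper59.V8

variable {P : Type} [Fintype P] {G : Sh P}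

omit [Fintype P] in
/-- the weight of a circle of length `n` is at most `n / 8` -/
theorem sqrt_le (σ : Equiv.Perm P) (b : P → Bool) (e : P) :
    Real.sqrt ((nL σ b e : ℝ) * (nR σ b e : ℝ)) / 4 ≤ (Function.minimalPeriod σ e : ℝ) / 8 := by
  have h := nL_add_nR σ b e
  have h1 : (nL σ b e : ℝ) + (nR σ b e : ℝ) = (Function.minimalPeriod σ e : ℝ) := by exact_mod_cast h
  have h2 : Real.sqrt ((nL σ b e : ℝ) * (nR σ b e : ℝ)) ≤ (Function.minimalPeriod σ e : ℝ) / 2 := by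
    rw [Real.sqrt_le_left (by positivity), ← h1]
    nlinarith [sq_nonneg ((nL σ b e : ℝ) - (nR σ b e : ℝ))]
  linarith

/-- **The lens for circles with small `l r`.** -/
theorem lens_w (hG : Plane G) (nab : Dg G → ℤ[X]) (hn : Cs nab) {N : ℝ}
    (hN : ∀ e : P, Real.sqrt ((nL (seifert G) (fun e => G.lf (G.nxt e)) e : ℝ) * (nR (seifert G) (fun e => G.lf (G.nxt e)) e : ℝ)) / 4 ≤ N / 8)
    {s : ℂ} (hs0 : s ≠ 0) (hs1 : normSq s ≠ 1) (hz : aeval (s⁻¹ - s) (nab (allPos G)) = 0) :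
    2 * (1 + normSq s) ≤ N * |s.im| := by
  have h3 := lens hG nab hn hs0 hs1 hz (α := 0) (B := N / 4) le_rfl (fun _ => N / 8) (fun _ => rfl) (fun c hc => by
    refine ⟨fun e => ?_, fun x _ => by linarith⟩
    have h := cycle_q (seifert G) (fun e => c (Lf G e)) (fun e => c (Rf G e)) (fun e => G.lf (G.nxt e)) (fun e he => ?_) (fun e he => ?_) e
    · rw [zero_mul, add_zero]
      refine h.trans (mul_le_mul_of_nonneg_right (hN e) ?_)
      refine Finset.sum_nonneg fun k _ => ?_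
      unfold fu
      exact add_nonneg (normSq_nonneg _) (normSq_nonneg _)
    · show c (Rf G (seifert G e)) = c (Rf G e)
      rw [step_true hG.cross he]
    · show c (Lf G (seifert G e)) = c (Lf G e)
      rw [step_false hG.cross he])
  linarith

/-- **Zero-free regions**, from the numbers of crossings on the two sides of the circles. -/
theorem zfree_w (hG : Plane G) (nab : Dg G → ℤ[X]) (hn : Cs nab) {N : ℝ}
    (hN : ∀ e : P, Real.sqrt ((nL (seifert G) (fun e => G.lf (G.nxt e)) e : ℝ) * (nR (seifert G) (fun e => G.lf (G.nxt e)) e : ℝ)) / 4 ≤ N / 8)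
    {z : ℂ} (hz : aeval z (nab (allPos G)) = 0) :
    (z.re = 0 ∧ |z.im| ≤ 2) ∨ (8 ≤ N * |z.im| ∧ 4 * |z.re| ≤ N * |z.im| ∧ ‖z‖ ≤ N / 2) := by
  obtain ⟨s, hs0, rfl⟩ := exists_s z
  have hn' : normSq s = s.re ^ 2 + s.im ^ 2 := by rw [normSq_apply]; ring
  have hn0 : 0 < normSq s := normSq_pos.2 hs0
  have h1 : (s⁻¹ - s).re = s.re * (1 - normSq s) / normSq s := by
    rw [sub_re, inv_re]
    field_simp
  have h2 : (s⁻¹ - s).im = -(s.im * (1 + normSq s)) / normSq s := by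
    rw [sub_im, inv_im]
    field_simp
    ring
  by_cases hs1 : normSq s = 1
  · left
    rw [h1, h2, hs1]
    refine ⟨by simp, ?_⟩
    have h5 : s.im ^ 2 ≤ 1 := by nlinarith [sq_nonneg s.re]
    have h6 : |s.im| ≤ 1 := by rwa [sq_le_one_iff_abs_le_one] at h5
    rw [div_one, abs_neg, abs_mul]
    norm_num
    linarith
  · right
    have h := lens_w hG nab hn hN hs0 hs1 hz
    set n := normSq s with hndef
    have hN0 : 0 ≤ N * |s.im| := by nlinarith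
    have hN1 : 0 < N := by
      by_contra hcon
      push Not at hcon
      nlinarith [abs_nonneg s.im, mul_nonneg (neg_nonneg.2 hcon) (abs_nonneg s.im)]
    have hre : |(s⁻¹ - s).re| = |s.re| * |1 - n| / n := by
      rw [h1, abs_div, abs_mul, abs_of_pos hn0]
    have him : |(s⁻¹ - s).im| = |s.im| * (1 + n) / n := by
      rw [h2, abs_div, abs_neg, abs_mul, abs_of_pos hn0, abs_of_pos (by linarith : 0 < 1 + n)]
    have hA : 2 * (1 + n) * (1 + n) ≤ N * |s.im| * (1 + n) := mul_le_mul_of_nonneg_right h (by linarith)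
    have hsre : |s.re| * |1 - n| ≤ (1 + n) * (1 + n) / 2 := by
      have a1 : |s.re| ^ 2 ≤ n := by rw [sq_abs, hn']; nlinarith [sq_nonneg s.im]
      have a2 : |1 - n| ≤ 1 + n := by
        rw [abs_le]
        constructor <;> linarith
      have a3 : |s.re| ≤ (1 + n) / 2 := by
        nlinarith [sq_nonneg (|s.re| - 1)]
      have a4 := abs_nonneg (1 - n)
      have a5 := abs_nonneg s.re
      nlinarith [mul_le_mul a3 a2 a4 (by linarith)]
    refine ⟨?_, ?_, ?_⟩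
    · rw [him, mul_div_assoc', le_div_iff₀ hn0]
      nlinarith [sq_nonneg (n - 1)]
    · rw [hre, him, mul_div_assoc', mul_div_assoc', div_le_div_iff_of_pos_right hn0]
      nlinarith
    · -- `‖z‖ ≤ ‖s‖ + ‖s‖⁻¹`
      have hs : normSq s = ‖s‖ ^ 2 := Complex.normSq_eq_norm_sq s
      have hs2 : 0 < ‖s‖ := norm_pos_iff.2 hs0
      have b1 : |s.im| ≤ ‖s‖ := Complex.abs_im_le_norm s
      have b2 : ‖s⁻¹ - s‖ ≤ ‖s‖⁻¹ + ‖s‖ := (norm_sub_le _ _).trans (by rw [norm_inv])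
      have b3 : 2 * (1 + ‖s‖ ^ 2) ≤ N * ‖s‖ := by
        rw [← hs]
        exact h.trans (mul_le_mul_of_nonneg_left b1 hN1.le)
      have b4 : ‖s‖⁻¹ + ‖s‖ = (1 + ‖s‖ ^ 2) / ‖s‖ := by
        field_simp
      refine b2.trans ?_
      rw [b4, div_le_iff₀ hs2]
      linarith

/-- **Zero-free regions when all Seifert circles meet at most `N` crossings.** -/
theorem zfree (hG : Plane G) (nab : Dg G → ℤ[X]) (hn : Cs nab) {N : ℝ} (hN : ∀ e : P, (Function.minimalPeriod (seifert G) e : ℝ) ≤ N)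
    {z : ℂ} (hz : aeval z (nab (allPos G)) = 0) :
    (z.re = 0 ∧ |z.im| ≤ 2) ∨ (8 ≤ N * |z.im| ∧ 4 * |z.re| ≤ N * |z.im| ∧ ‖z‖ ≤ N / 2) :=
  zfree_w hG nab hn (fun e => (sqrt_le _ _ e).trans (by linarith [hN e])) hz

/-- the alternative for `t = z ^ 2` -/
theorem sq_alt {N : ℝ} {z t : ℂ} (ht : z ^ 2 = t)
    (h : (z.re = 0 ∧ |z.im| ≤ 2) ∨ (8 ≤ N * |z.im| ∧ 4 * |z.re| ≤ N * |z.im| ∧ ‖z‖ ≤ N / 2)) :
    (t.im = 0 ∧ -4 ≤ t.re ∧ t.re ≤ 0) ∨
      (64 ≤ N ^ 2 * ‖t‖ ∧ (N ^ 2 + 16) * t.re ≤ (N ^ 2 - 16) * ‖t‖ ∧ ‖t‖ ≤ N ^ 2 / 4) := by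
  have hre : t.re = z.re ^ 2 - z.im ^ 2 := by rw [← ht, pow_two, mul_re]; ring
  have him : t.im = 2 * z.re * z.im := by rw [← ht, pow_two, mul_im]; ring
  have hnorm : ‖t‖ = z.re ^ 2 + z.im ^ 2 := by
    rw [← ht, norm_pow, ← Complex.normSq_eq_norm_sq, normSq_apply]; ring
  rcases h with ⟨h1, h2⟩ | ⟨h1, h2, h3⟩
  · left
    have h4 : z.im ^ 2 ≤ 4 := by
      rw [← sq_abs z.im]
      nlinarith [abs_nonneg z.im]
    rw [him, hre, h1]
    refine ⟨by ring, by nlinarith, by nlinarith [sq_nonneg z.im]⟩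
  · right
    have h4 : (8 : ℝ) ^ 2 ≤ (N * |z.im|) ^ 2 := pow_le_pow_left₀ (by norm_num) h1 2
    have h5 : (4 * |z.re|) ^ 2 ≤ (N * |z.im|) ^ 2 := pow_le_pow_left₀ (by positivity) h2 2
    have h6 : ‖z‖ ^ 2 ≤ (N / 2) ^ 2 := pow_le_pow_left₀ (norm_nonneg _) h3 2
    rw [mul_pow, sq_abs] at h4
    rw [mul_pow, mul_pow, sq_abs, sq_abs] at h5
    rw [← Complex.normSq_eq_norm_sq, normSq_apply] at h6
    rw [hnorm, hre]
    refine ⟨?_, ?_, ?_⟩
    · nlinarith [mul_nonneg (sq_nonneg N) (sq_nonneg z.re)]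
    · nlinarith
    · nlinarith

/-- the same for `t = z ^ 2` -/
theorem zfree_sq (hG : Plane G) (nab : Dg G → ℤ[X]) (hn : Cs nab) {N : ℝ} (hN : ∀ e : P, (Function.minimalPeriod (seifert G) e : ℝ) ≤ N)
    {z t : ℂ} (ht : z ^ 2 = t) (hz : aeval z (nab (allPos G)) = 0) :
    (t.im = 0 ∧ -4 ≤ t.re ∧ t.re ≤ 0) ∨
      (64 ≤ N ^ 2 * ‖t‖ ∧ (N ^ 2 + 16) * t.re ≤ (N ^ 2 - 16) * ‖t‖ ∧ ‖t‖ ≤ N ^ 2 / 4) :=
  sq_alt ht (zfree hG nab hn hN hz)

end Pool.Agent.Helper57.EV4
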