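import Pool.Agent.Helper57.EV4.ToHyp

/-!
# MP_ea8a26, project EV4: the final theorem from the core and the windows
-/

set_option autoImplicit false

namespace Pool.Agent.Helper57.EV4

open Polynomial Pool.Agent.Helper85.Exp Pool.Agent.Helper60.EV2 Pool.Agent.Helper57.EV Pool.Agent.Helper57.EV2 Pool.Agent.Helper43.Pln
  Pool.Agent.Helper43.V6 Pool.Agent.Helper74.EV4

/-- the conclusion of the core -/
def Core4 : Prop := ∀ b c T κ : ℝ, Adm b c T κ → ∃ L₀ : ℕ, ∀ L : ℕ, L₀ ≤ L → ∀ P : ℝ[X], Hyp b c T κ L P →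
  ∀ k : ℕ, 1 ≤ k → P.coeff (k - 1) * P.coeff (k + 1) ≤ P.coeff k ^ 2

/-- the factor of one window -/
noncomputable def lam (z : ℂ) : ℝ := (1 + ‖1 + z ^ 2‖) / (2 + ‖z‖ ^ 2)

theorem lam_le (z : ℂ) : lam z ≤ Real.exp (-(wt (‖z‖ ^ 2) * (1 - Real.cos (2 * z.arg)) / 2)) := by
  obtain ⟨r, hr⟩ : ∃ r, r = ‖z‖ ^ 2 := ⟨_, rfl⟩
  obtain ⟨x, hx⟩ : ∃ x, x = 1 - Real.cos (2 * z.arg) := ⟨_, rfl⟩
  have hr0 : 0 ≤ r := by rw [hr]; positivity
  have hx0 : 0 ≤ x := by rw [hx]; linarith [Real.cos_le_one (2 * z.arg)]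
  have hx2 : x ≤ 2 := by rw [hx]; linarith [Real.neg_one_le_cos (2 * z.arg)]
  have hre : (z ^ 2).re = r * Real.cos (2 * z.arg) := by
    have h1 : z = ‖z‖ * Complex.exp (z.arg * Complex.I) := (Complex.norm_mul_exp_arg_mul_I z).symm
    have h2 : z ^ 2 = ((r : ℝ) : ℂ) * Complex.exp (((2 * z.arg : ℝ) : ℂ) * Complex.I) := by
      conv_lhs => rw [h1]
      rw [mul_pow, ← Complex.exp_nat_mul, hr]
      push_cast
      congr 2
      ring
    rw [h2, Complex.re_ofReal_mul, Complex.exp_ofReal_mul_I_re]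
  have hn : ‖1 + z ^ 2‖ ^ 2 = (1 + r) ^ 2 - 2 * r * x := by
    have h3 : ‖z ^ 2‖ ^ 2 = r ^ 2 := by rw [norm_pow, hr]
    rw [← Complex.normSq_eq_norm_sq, Complex.normSq_apply] at h3
    rw [← Complex.normSq_eq_norm_sq, Complex.normSq_apply]
    simp only [Complex.add_re, Complex.one_re, Complex.add_im, Complex.one_im, zero_add]
    rw [hre] at h3 ⊢
    rw [hx]
    linear_combination h3
  have h1r : 0 < 1 + r := by linarith
  have h4 : ‖1 + z ^ 2‖ ≤ (1 + r) - r * x / (1 + r) := by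
    have h5 : 0 ≤ (1 + r) - r * x / (1 + r) := by
      rw [sub_nonneg, div_le_iff₀ h1r]
      nlinarith
    refine le_of_sq_le_sq ?_ h5
    rw [hn, sub_sq, show 2 * (1 + r) * (r * x / (1 + r)) = 2 * r * x by field_simp]
    have := sq_nonneg (r * x / (1 + r))
    linarith
  have h6 : lam z ≤ 1 - wt r * x / 2 := by
    unfold lam wt
    rw [← hr, div_le_iff₀ (by linarith)]
    have h7 : r * x / (1 + r) ≥ r / (1 + r) ^ 2 * x / 2 * (2 + r) := by
      have e1 : r / (1 + r) ^ 2 * x / 2 * (2 + r) = r * x * (2 + r) / (2 * (1 + r) ^ 2) := by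
        field_simp
      rw [ge_iff_le, e1, div_le_div_iff₀ (by positivity) h1r]
      have h8 : 0 ≤ r * x := by positivity
      nlinarith [mul_nonneg h8 h1r.le, mul_nonneg (mul_nonneg h8 h1r.le) hr0]
    linarith
  rw [← hr, ← hx]
  refine h6.trans ?_
  have := Real.add_one_le_exp (-(wt r * x / 2))
  linarith

/-- the zeros are in the region with the parameter `N` -/
def Zf {P : Type} {G : Sh P} (nab : Dg G → ℤ[X]) (N : ℝ) : Prop :=
  ∀ z : ℂ, aeval z (nab (allPos G)) = 0 → (z.re = 0 ∧ |z.im| ≤ 2) ∨ (8 ≤ N * |z.im| ∧ 4 * |z.re| ≤ N * |z.im| ∧ ‖z‖ ≤ N / 2)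

/-- **The final theorem from the core**, with the zero-free region and the decay as hypotheses. -/
theorem fin_gen (core : Core4) {N κ : ℝ} (hN8 : 8 ≤ N) (hκ0 : 0 < κ) (hκ1 : κ ≤ 1) : ∃ m₀ : ℕ,
    ∀ (P : Type) [Fintype P] (G : Sh P), Plane G → m₀ ≤ crossings G → ∀ nab : Dg G → ℤ[X], Cs nab → Zf nab N →
    (∀ r θ : ℝ, 0 < r → |θ| ≤ Real.pi → ‖aeval (EVC.pt r θ) (half (nab (allPos G)))‖ ≤
      Real.exp (-(κ * crossings G * wt r * (1 - Real.cos θ))) * (half (nab (allPos G))).eval r) → LogConcave G nab := by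
  have hadm : Adm (4 / (N + 4)) (64 / N ^ 2) (N ^ 2) κ := by
    refine ⟨by positivity, ?_, by positivity, ?_, ?_, hκ0, hκ1⟩
    · rw [div_le_one (by linarith)]
      linarith
    · rw [div_le_one (by positivity)]
      nlinarith
    · nlinarith
  obtain ⟨L₀, hL₀⟩ := core _ _ _ _ hadm
  refine ⟨L₀, fun P _ G hG hm nab hn zf dec k => ?_⟩
  have hne := nonempty_of hG
  obtain ⟨nn, hdeg, hpar⟩ := Pool.Agent.Helper60.PD.nab_nn hG.cross hn
  have hcard := card_eq hG.cross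
  refine lc_int (fun i => ?_) _ k
  change ∀ k, 0 ≤ (nab (Pool.Agent.Helper43.Pln.allPos G)).coeff k at nn
  by_cases h0 : nab (allPos G) = 0
  · rw [h0]
    simp
  refine lc_of hpar h0 ?_ i
  refine hL₀ (crossings G) hm _ (toHyp' nn hpar h0 ?_ (eval_one_le hG.cross hn) hN8 zf dec)
  have h4 : 2 * (nab (allPos G)).natDegree ≤ Nat.card P := hdeg
  omega

/-- **The final theorem from the core and the windows**, with the zero-free region as a hypothesis. -/
theorem fin_of' (core : Core4) {N : ℝ} (hN8 : 8 ≤ N) (K : ℕ) : ∃ m₀ : ℕ, ∀ (P : Type) [Fintype P] (G : Sh P), Plane G →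
    m₀ ≤ crossings G → ∀ nab : Dg G → ℤ[X], Cs nab → Zf nab N → ∀ M : ℕ, crossings G ≤ K * M →
    (∀ z : ℂ, ‖aeval z (nab (allPos G))‖ ≤ lam z ^ M * aeval ‖z‖ (nab (allPos G))) → LogConcave G nab := by
  obtain ⟨κ, hκ⟩ : ∃ κ : ℝ, κ = 1 / (2 * (K + 1)) := ⟨_, rfl⟩
  have hK0 : (0 : ℝ) ≤ K := Nat.cast_nonneg K
  have hκ0 : 0 < κ := by rw [hκ]; positivity
  have hκ1 : κ ≤ 1 := by
    rw [hκ, div_le_one (by positivity)]
    linarith
  obtain ⟨m₀, hm₀⟩ := fin_gen core hN8 hκ0 hκ1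
  refine ⟨m₀, fun P _ G hG hm nab hn zf M hM h3 => ?_⟩
  have hne := nonempty_of hG
  obtain ⟨nn, hdeg, hpar⟩ := Pool.Agent.Helper60.PD.nab_nn hG.cross hn
  change ∀ k, 0 ≤ (nab (Pool.Agent.Helper43.Pln.allPos G)).coeff k at nn
  by_cases h0 : nab (allPos G) = 0
  · refine fun k => lc_int (fun i => ?_) _ k
    rw [h0]
    simp
  refine hm₀ P G hG hm nab hn zf (dec_half hpar h0 fun z _ => ?_)
  refine (h3 z).trans (mul_le_mul_of_nonneg_right ?_ ?_)
  · have h5 : 0 ≤ lam z := by unfold lam; positivity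
    refine (pow_le_pow_left₀ h5 (lam_le z) M).trans ?_
    rw [← Real.exp_nat_mul]
    apply Real.exp_le_exp.2
    have h6 : 0 ≤ wt (‖z‖ ^ 2) * (1 - Real.cos (2 * z.arg)) := by
      unfold wt
      have := Real.cos_le_one (2 * z.arg)
      exact mul_nonneg (by positivity) (by linarith)
    have h7 : κ * (crossings G : ℝ) ≤ M / 2 := by
      have h8 : (crossings G : ℝ) ≤ K * M := by exact_mod_cast hM
      rw [hκ, div_mul_eq_mul_div, one_mul, div_le_iff₀ (by positivity)]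
      nlinarith [(Nat.cast_nonneg M : (0 : ℝ) ≤ M)]
    nlinarith [mul_le_mul_of_nonneg_right h7 h6]
  · rw [aeval_eq_sum_range]
    refine Finset.sum_nonneg fun j _ => ?_
    rw [zsmul_eq_mul]
    exact mul_nonneg (by exact_mod_cast nn j) (by positivity)

/-- **The final theorem from the core and the windows.** -/
theorem fin_of (core : Core4) (N K : ℕ) : ∃ m₀ : ℕ, ∀ (P : Type) [Fintype P] (G : Sh P), Plane G → (∀ p, total G p ≤ N) →
    m₀ ≤ crossings G → ∀ nab : Dg G → ℤ[X], Cs nab → ∀ M : ℕ, crossings G ≤ K * M →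
    (∀ z : ℂ, ‖aeval z (nab (allPos G))‖ ≤ lam z ^ M * aeval ‖z‖ (nab (allPos G))) → LogConcave G nab := by
  have hN8 : (8 : ℝ) ≤ N + 8 := by linarith [(Nat.cast_nonneg N : (0 : ℝ) ≤ N)]
  obtain ⟨m₀, hm₀⟩ := fin_of' core hN8 K
  refine ⟨m₀, fun P _ G hG hN hm nab hn => hm₀ P G hG hm nab hn fun z hz => ?_⟩
  refine zfree hG nab hn (fun e => ?_) hz
  rw [← total_eq hG.cross e]
  have : (total G e : ℝ) ≤ N := by exact_mod_cast hN e
  linarith

end Pool.Agent.Helper57.EV4
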