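import Pool.Agent.Helper57.EV4.Zfree
import Pool.Agent.Helper57.EV2.Half
import Pool.Agent.Helper74.EV4.Hyp
import Pool.Agent.Helper43.V6.Triple
import Pool.Agent.Helper43.V6.Bridge
import Pool.Agent.Helper60.PD.Exist

/-!
# MP_ea8a26, project EV4: from the Conway polynomial to the hypothesis of the core
-/

set_option autoImplicit false

namespace Pool.Agent.Helper57.EV4

open Polynomial Pool.Agent.Helper85.Exp Pool.Agent.Helper60.EV2 Pool.Agent.Helper57.EV Pool.Agent.Helper57.EV2 Pool.Agent.Helper43.Pln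
  Pool.Agent.Helper43.V6 Pool.Agent.Helper74.EV4

/-- a root of `half p` is the square of a root of `p` -/
theorem root_half {p : ℤ[X]} (hpar : ∀ j k, p.coeff j ≠ 0 → p.coeff k ≠ 0 → j % 2 = k % 2) (h0 : p ≠ 0) {ρ : ℂ}
    (hρ : ρ ∈ EVC.Z (half p)) : ∃ z : ℂ, z ^ 2 = ρ ∧ aeval z p = 0 := by
  obtain ⟨z, hz⟩ := IsAlgClosed.exists_pow_nat_eq ρ (n := 2) (by norm_num)
  refine ⟨z, hz, ?_⟩
  have h1 : aeval ρ (half p) = 0 := by
    unfold EVC.Z at hρ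
    have h2 := (mem_roots'.1 hρ).2
    rw [IsRoot.def, eval_map] at h2
    rw [aeval_def]
    exact h2
  rw [aeval_eq hpar h0, hz, h1, mul_zero]

/-- distance from the positive axis -/
theorem dist_of {N : ℝ} (hN : 8 ≤ N) {ρ : ℂ} (h : (ρ.im = 0 ∧ ρ.re ≤ 0) ∨ (N ^ 2 + 16) * ρ.re ≤ (N ^ 2 - 16) * ‖ρ‖)
    {r : ℝ} (hr : 0 < r) : 4 / (N + 4) * (r + ‖ρ‖) ≤ ‖(r : ℂ) - ρ‖ := by
  have hN4 : 0 < N + 4 := by linarith
  have hn0 := norm_nonneg ρ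
  have hsq : ‖(r : ℂ) - ρ‖ ^ 2 = r ^ 2 - 2 * r * ρ.re + ‖ρ‖ ^ 2 := by
    rw [← Complex.normSq_eq_norm_sq, ← Complex.normSq_eq_norm_sq, Complex.normSq_apply, Complex.normSq_apply]
    simp only [Complex.sub_re, Complex.sub_im, Complex.ofReal_re, Complex.ofReal_im]
    ring
  apply le_of_sq_le_sq _ (norm_nonneg _)
  rw [hsq, mul_pow, div_pow, div_mul_eq_mul_div, div_le_iff₀ (by positivity)]
  rcases h with ⟨h1, h2⟩ | h1
  · have h3 : 0 ≤ -(2 * r * ρ.re) := by nlinarith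
    have h4 : (4 : ℝ) ^ 2 * (r + ‖ρ‖) ^ 2 ≤ (r ^ 2 + ‖ρ‖ ^ 2) * (N + 4) ^ 2 := by
      have a1 : (r + ‖ρ‖) ^ 2 ≤ 2 * (r ^ 2 + ‖ρ‖ ^ 2) := by nlinarith [sq_nonneg (r - ‖ρ‖)]
      have a2 : (32 : ℝ) ≤ (N + 4) ^ 2 := by nlinarith
      have a3 : 0 ≤ r ^ 2 + ‖ρ‖ ^ 2 := by positivity
      nlinarith [mul_le_mul_of_nonneg_left a2 a3]
    nlinarith [sq_nonneg (N + 4)]
  · -- `(N² + 16) |r - ρ|² ≥ 16 (r + |ρ|)²`
    have h2 : 16 * (r + ‖ρ‖) ^ 2 ≤ (r ^ 2 - 2 * r * ρ.re + ‖ρ‖ ^ 2) * (N ^ 2 + 16) := by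
      have a1 : 2 * r * ((N ^ 2 + 16) * ρ.re) ≤ 2 * r * ((N ^ 2 - 16) * ‖ρ‖) := mul_le_mul_of_nonneg_left h1 (by positivity)
      nlinarith [mul_nonneg (sq_nonneg N) (sq_nonneg (r - ‖ρ‖))]
    have h3 : N ^ 2 + 16 ≤ (N + 4) ^ 2 := by nlinarith
    have h4 : 0 ≤ r ^ 2 - 2 * r * ρ.re + ‖ρ‖ ^ 2 := by rw [← hsq]; positivity
    have h5 := mul_le_mul_of_nonneg_left h3 h4
    linarith

/-- the value at `1` -/
theorem eval_one_le {P : Type} [Fintype P] [Nonempty P] {G : Sh P} (ho : ∀ i, G.op i ≠ i) {nab : Dg G → ℤ[X]} (h : Cs nab) :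
    (nab (Pool.Agent.Helper43.Pln.allPos G)).eval 1 ≤ 2 ^ crossings G := by
  classical
  obtain ⟨b⟩ := ‹Nonempty P›
  have h1 := expand (h.cw b) (Pool.Agent.Helper43.Pln.allPos G) (fun i _ => Or.inl rfl)
  have h2 := Pool.Agent.Helper60.PD.unv_card (G := G) ho b
  have h3 := card_eq ho
  have h4 : (unv (Pool.Agent.Helper43.Pln.allPos G) b 0).card ≤ crossings G := by
    have : 2 * (unv (Pool.Agent.Helper43.Pln.allPos G) b 0).card ≤ Nat.card P := h2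
    omega
  rw [h1, eval_finset_sum]
  simp only [one_mul, eval_pow, eval_X, one_pow, Finset.sum_const, nsmul_eq_mul, mul_one]
  have h5 : ((unv (Pool.Agent.Helper43.Pln.allPos G) b 0).powerset.filter
      (fun S => Asc (Pool.Agent.Helper43.Pln.allPos G) b S)).card ≤ 2 ^ crossings G := by
    refine (Finset.card_filter_le _ _).trans ?_
    rw [Finset.card_powerset]
    exact Nat.pow_le_pow_right (by norm_num) h4
  exact_mod_cast h5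

/-- **The hypothesis of the core for `half p`**, with the decay of `half p` as an assumption. -/
theorem toHyp' {p : ℤ[X]} (nn : ∀ k, 0 ≤ p.coeff k) (hpar : ∀ j k, p.coeff j ≠ 0 → p.coeff k ≠ 0 → j % 2 = k % 2) (h0 : p ≠ 0)
    {L : ℕ} (hL : p.natDegree ≤ L) (h1 : p.eval 1 ≤ 2 ^ L) {N κ : ℝ} (hN : 8 ≤ N)
    (zf : ∀ z : ℂ, aeval z p = 0 → (z.re = 0 ∧ |z.im| ≤ 2) ∨ (8 ≤ N * |z.im| ∧ 4 * |z.re| ≤ N * |z.im| ∧ ‖z‖ ≤ N / 2))
    (dec : ∀ r θ : ℝ, 0 < r → |θ| ≤ Real.pi →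
      ‖aeval (EVC.pt r θ) (half p)‖ ≤ Real.exp (-(κ * L * wt r * (1 - Real.cos θ))) * (half p).eval r) :
    Hyp (4 / (N + 4)) (64 / N ^ 2) (N ^ 2) κ L (half p) := by
  have hN0 : 0 < N := by linarith
  -- the alternative for the roots
  have key : ∀ ρ ∈ EVC.Z (half p), (ρ.im = 0 ∧ -4 ≤ ρ.re ∧ ρ.re ≤ 0) ∨
      (64 ≤ N ^ 2 * ‖ρ‖ ∧ (N ^ 2 + 16) * ρ.re ≤ (N ^ 2 - 16) * ‖ρ‖ ∧ ‖ρ‖ ≤ N ^ 2 / 4) := by
    intro ρ hρ
    obtain ⟨z, hz, hz0⟩ := root_half hpar h0 hρ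
    exact sq_alt hz (zf z hz0)
  have hne : ∀ ρ ∈ EVC.Z (half p), ρ ≠ 0 := by
    rintro ρ hρ rfl
    unfold EVC.Z at hρ
    have h2 := (mem_roots'.1 hρ).2
    rw [IsRoot.def, ← coeff_zero_eq_eval_zero, coeff_map] at h2
    have h3 := half_one nn h0
    have h4 : (half p).coeff 0 = 0 := by
      have := h2
      simpa using this
    rw [h4] at h3
    linarith
  refine ⟨⟨half_nn nn, half_one nn h0, ?_⟩, ?_, ?_, ?_, ?_, dec⟩
  · have := half_deg h0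
    omega
  · intro ρ hρ r hr
    refine dist_of hN ?_ hr
    rcases key ρ hρ with ⟨h1, -, h2⟩ | ⟨-, h1, -⟩
    · exact Or.inl ⟨h1, h2⟩
    · exact Or.inr h1
  · intro ρ hρ
    rcases key ρ hρ with ⟨h1, h2, h3⟩ | ⟨-, -, h1⟩
    · have h4 : ‖ρ‖ = |ρ.re| := by
        have : ρ = (ρ.re : ℂ) := Complex.ext rfl (by rw [h1]; simp)
        rw [this, Complex.norm_real, Real.norm_eq_abs, Complex.ofReal_re]
      rw [h4, abs_of_nonpos h3]
      nlinarith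
    · nlinarith [sq_nonneg N]
  · intro ρ hρ hρc
    rcases key ρ hρ with ⟨h1, -, h3⟩ | ⟨h1, -, -⟩
    · refine ⟨h1, lt_of_le_of_ne h3 fun h => hne ρ hρ (Complex.ext h h1)⟩
    · exfalso
      rw [lt_div_iff₀ (by positivity)] at hρc
      linarith
  · have h3 := aeval_eq hpar h0 1
    have h4 : aeval (1 : ℂ) p = ((p.eval 1 : ℤ) : ℂ) := by
      have := aeval_algebraMap_apply (A := ℤ) (B := ℂ) (x := 1) (p := p)
      simpa using this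
    have h5 : aeval ((1 : ℂ) ^ 2) (half p) = (((half p).eval 1 : ℝ) : ℂ) := by
      rw [one_pow, ← Complex.ofReal_one, ← Complex.coe_algebraMap, aeval_algebraMap_apply, coe_aeval_eq_eval]
    rw [h4, h5, one_pow, one_mul] at h3
    have h6 : (half p).eval 1 = ((p.eval 1 : ℤ) : ℝ) := by exact_mod_cast h3.symm
    rw [h6]
    have h7 : ((p.eval 1 : ℤ) : ℝ) ≤ 2 ^ L := by exact_mod_cast h1
    exact h7.trans (pow_le_pow_left₀ (by norm_num) (by norm_num) L)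

/-- the decay of `half p` from the decay of `p` -/
theorem dec_half {p : ℤ[X]} (hpar : ∀ j k, p.coeff j ≠ 0 → p.coeff k ≠ 0 → j % 2 = k % 2) (h0 : p ≠ 0) {L : ℕ} {κ : ℝ}
    (dec : ∀ z : ℂ, z ≠ 0 → ‖aeval z p‖ ≤
      Real.exp (-(κ * L * wt (‖z‖ ^ 2) * (1 - Real.cos (2 * z.arg)))) * aeval ‖z‖ p) (r θ : ℝ) (hr : 0 < r) (hθ : |θ| ≤ Real.pi) :
      ‖aeval (EVC.pt r θ) (half p)‖ ≤ Real.exp (-(κ * L * wt r * (1 - Real.cos θ))) * (half p).eval r := by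
  -- `z = √r e^{iθ/2}`
  obtain ⟨z, hz⟩ : ∃ z : ℂ, z = (√r : ℂ) * Complex.exp ((θ / 2 : ℝ) * Complex.I) := ⟨_, rfl⟩
  have hsr : 0 < √r := Real.sqrt_pos.2 hr
  have hnz : ‖z‖ = √r := by
    rw [hz, norm_mul, Complex.norm_exp_ofReal_mul_I, mul_one, Complex.norm_real, Real.norm_of_nonneg hsr.le]
  have hz0 : z ≠ 0 := by
    rw [← norm_pos_iff, hnz]
    exact hsr
  have hz2 : z ^ 2 = EVC.pt r θ := by
    unfold EVC.pt
    rw [hz, mul_pow, ← Complex.ofReal_pow, Real.sq_sqrt hr.le, ← Complex.exp_nat_mul]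
    congr 2
    push_cast
    ring
  have hmem : θ / 2 ∈ Set.Ioc (-Real.pi) Real.pi := by
    have h1 := abs_le.1 hθ
    have h2 := Real.pi_pos
    constructor <;> linarith [h1.1, h1.2]
  have harg : z.arg = θ / 2 := by
    rw [hz, Complex.exp_mul_I]
    exact_mod_cast Complex.arg_mul_cos_add_sin_mul_I hsr hmem
  have h1 := dec z hz0
  rw [hnz, Real.sq_sqrt hr.le, harg, mul_div_cancel₀ _ (two_ne_zero), aeval_eq hpar h0, norm_mul, norm_pow, hnz, hz2] at h1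
  have h2 : (aeval √r p : ℝ) = √r ^ p.natTrailingDegree * (half p).eval r := by
    have h3 := aeval_eq hpar h0 ((√r : ℝ) : ℂ)
    have h4 : aeval ((√r : ℝ) : ℂ) p = ((aeval (√r) p : ℝ) : ℂ) := by
      rw [← Complex.coe_algebraMap, aeval_algebraMap_apply]
    have h5 : aeval (((√r : ℝ) : ℂ) ^ 2) (half p) = (((half p).eval r : ℝ) : ℂ) := by
      rw [← Complex.ofReal_pow, Real.sq_sqrt hr.le, ← Complex.coe_algebraMap, aeval_algebraMap_apply, coe_aeval_eq_eval]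
    rw [h4, h5, ← Complex.ofReal_pow, ← Complex.ofReal_mul] at h3
    exact Complex.ofReal_injective h3
  rw [h2] at h1
  have h3 : 0 < √r ^ p.natTrailingDegree := by positivity
  refine le_of_mul_le_mul_left ?_ h3
  calc √r ^ p.natTrailingDegree * ‖aeval (EVC.pt r θ) (half p)‖ ≤ _ := h1
    _ = _ := by ring

/-- **The hypothesis of the core for `half p`.** -/
theorem toHyp {p : ℤ[X]} (nn : ∀ k, 0 ≤ p.coeff k) (hpar : ∀ j k, p.coeff j ≠ 0 → p.coeff k ≠ 0 → j % 2 = k % 2) (h0 : p ≠ 0)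
    {L : ℕ} (hL : p.natDegree ≤ L) (h1 : p.eval 1 ≤ 2 ^ L) {N κ : ℝ} (hN : 8 ≤ N)
    (zf : ∀ z : ℂ, aeval z p = 0 → (z.re = 0 ∧ |z.im| ≤ 2) ∨ (8 ≤ N * |z.im| ∧ 4 * |z.re| ≤ N * |z.im| ∧ ‖z‖ ≤ N / 2))
    (dec : ∀ z : ℂ, z ≠ 0 → ‖aeval z p‖ ≤
      Real.exp (-(κ * L * wt (‖z‖ ^ 2) * (1 - Real.cos (2 * z.arg)))) * aeval ‖z‖ p) :
    Hyp (4 / (N + 4)) (64 / N ^ 2) (N ^ 2) κ L (half p) :=
  toHyp' nn hpar h0 hL h1 hN zf (dec_half hpar h0 dec)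

end Pool.Agent.Helper57.EV4
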